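import Pool.Agent.W2helper12.BW.Coc
import Pool.Agent.W2helper25.AR.Fill

/-!
# Shephard groups: reduction to the irreducible cliques
-/

set_option autoImplicit false

namespace Pool.Agent.W2helper12.BW

open Pool.Agent.Y110.FJ
open Pool.Agent.Y462.SS (Closed Wr)
open Pool.Agent.Helper741 (alt alt_zero map_alt alt_two)
open Pool.Agent.K7.H87.FJ6
open Pool.Agent.W2helper25.AR (PP gen_mem PP_mono amg inc_inj)
open Pool.Agent.W2helper25.GP (s_am)

variable {C : ∀ (G : Type) [Group G], Prop}

theorem PP_range {B : Type} (M : CoxeterMatrix B) (p : B → ℕ) (F : Set B) :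
    PP M p F ≤ (inc M p (Subtype.val : F → B) Subtype.val_injective).range := by
  unfold PP
  rw [Subgroup.closure_le]
  rintro _ ⟨i, hi, rfl⟩
  exact ⟨Sh.gen _ _ ⟨i, hi⟩, inc_gen _ _ _ _ _⟩

/-- **an infinite label** -/
theorem inf_step (hC : ClosedE C) {A : Type} [Finite A] (M : CoxeterMatrix A) (p : A → ℕ)
    (hp : Adm M p) (hW : C M.Group) {s t : A} (hst : s ≠ t) (h0 : M s t = 0)
    (hs : C (Sh (pull M (Subtype.val : {i | i ≠ s} → A) Subtype.val_injective) (p ∘ Subtype.val)))
    (ht : C (Sh (pull M (Subtype.val : {i | i ≠ t} → A) Subtype.val_injective) (p ∘ Subtype.val))) :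
    C (Sh M p) := by
  obtain ⟨P, _, f, hP, hf⟩ := retr hC hp (Subtype.val : {i | i ≠ s} → A) Subtype.val_injective hW hs
  obtain ⟨P', _, f', hP', hf'⟩ :=
    retr hC hp (Subtype.val : {i | i ≠ t} → A) Subtype.val_injective hW ht
  refine s_am C hC _ _ _ _ _ (amg hst h0) (f.prod f') ?_ ?_ (hC.base.prod _ _ hP hP')
  · intro a ha h1
    obtain ⟨u, rfl⟩ := PP_range M p _ ha
    rw [hf u (congrArg Prod.fst h1), map_one]
  · intro a ha h1
    obtain ⟨u, rfl⟩ := PP_range M p _ ha
    rw [hf' u (congrArg Prod.snd h1), map_one]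

/-- **commuting parts** -/
theorem two_step (hC : ClosedE C) {A : Type} (M : CoxeterMatrix A) (p : A → ℕ) (U : Set A)
    (hU : ∀ i ∈ U, ∀ j ∈ Uᶜ, M i j = 2)
    (hs : C (Sh (pull M (Subtype.val : U → A) Subtype.val_injective) (p ∘ Subtype.val)))
    (ht : C (Sh (pull M (Subtype.val : ↥(Uᶜ) → A) Subtype.val_injective) (p ∘ Subtype.val))) :
    C (Sh M p) := by
  classical
  obtain ⟨MU, hMU⟩ : ∃ MU : CoxeterMatrix U,
    MU = pull M (Subtype.val : U → A) Subtype.val_injective := ⟨_, rfl⟩
  obtain ⟨MV, hMV⟩ : ∃ MV : CoxeterMatrix ↥(Uᶜ),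
    MV = pull M (Subtype.val : ↥(Uᶜ) → A) Subtype.val_injective := ⟨_, rfl⟩
  obtain ⟨F, hF1, hF2⟩ : ∃ F : A →
      Sh (pull M (Subtype.val : U → A) Subtype.val_injective) (p ∘ Subtype.val) ×
      Sh (pull M (Subtype.val : ↥(Uᶜ) → A) Subtype.val_injective) (p ∘ Subtype.val),
      (∀ i (hi : i ∈ U), F i = (Sh.gen _ _ ⟨i, hi⟩, 1)) ∧
      (∀ i (hi : i ∈ Uᶜ), F i = (1, Sh.gen _ _ ⟨i, hi⟩)) :=
    ⟨fun i => if hi : i ∈ U then (Sh.gen _ _ ⟨i, hi⟩, 1) else (1, Sh.gen _ _ ⟨i, hi⟩),
      fun i hi => dif_pos hi, fun i hi => dif_neg hi⟩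
  have hcom : ∀ i ∈ U, ∀ j ∈ Uᶜ, F i * F j = F j * F i := by
    intro i hi j hj
    rw [hF1 i hi, hF2 j hj]
    refine Prod.ext ?_ ?_
    · show _ * 1 = 1 * _
      rw [one_mul, mul_one]
    · show 1 * _ = _ * 1
      rw [one_mul, mul_one]
  let φ : Sh M p →* Sh (pull M (Subtype.val : U → A) Subtype.val_injective) (p ∘ Subtype.val) ×
      Sh (pull M (Subtype.val : ↥(Uᶜ) → A) Subtype.val_injective) (p ∘ Subtype.val) :=
    Sh.lift F (by
      intro i j
      by_cases hi : i ∈ U
      · by_cases hj : j ∈ U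
        · have h1 := congrArg (MonoidHom.inl _
            (Sh (pull M (Subtype.val : ↥(Uᶜ) → A) Subtype.val_injective) (p ∘ Subtype.val)))
            (Sh.rel (M := pull M (Subtype.val : U → A) Subtype.val_injective)
              (p := p ∘ Subtype.val) ⟨i, hi⟩ ⟨j, hj⟩)
          rw [map_alt, map_alt, pull_apply] at h1
          rw [hF1 i hi, hF1 j hj]
          exact h1
        · rw [hU i hi j hj, alt_two, alt_two]
          exact hcom i hi j hj
      · by_cases hj : j ∈ U
        · rw [M.symmetric, hU j hj i hi, alt_two, alt_two]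
          exact (hcom j hj i hi).symm
        · have h1 := congrArg (MonoidHom.inr
            (Sh (pull M (Subtype.val : U → A) Subtype.val_injective) (p ∘ Subtype.val)) _)
            (Sh.rel (M := pull M (Subtype.val : ↥(Uᶜ) → A) Subtype.val_injective)
              (p := p ∘ Subtype.val) ⟨i, hi⟩ ⟨j, hj⟩)
          rw [map_alt, map_alt, pull_apply] at h1
          rw [hF2 i hi, hF2 j hj]
          exact h1) (by
      intro i
      by_cases hi : i ∈ U
      · rw [hF1 i hi]
        refine Prod.ext ?_ (one_pow _)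
        exact Sh.pow (M := pull M (Subtype.val : U → A) Subtype.val_injective)
          (p := p ∘ Subtype.val) ⟨i, hi⟩
      · rw [hF2 i hi]
        refine Prod.ext (one_pow _) ?_
        exact Sh.pow (M := pull M (Subtype.val : ↥(Uᶜ) → A) Subtype.val_injective)
          (p := p ∘ Subtype.val) ⟨i, hi⟩)
  have hφ : ∀ i, φ (Sh.gen M p i) = F i := fun i => Sh.lift_gen _ _ _ _
  have hcc : ∀ x y, Commute (inc M p (Subtype.val : U → A) Subtype.val_injective x)
      (inc M p (Subtype.val : ↥(Uᶜ) → A) Subtype.val_injective y) := by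
    intro x y
    induction x using Sh.induction with
    | one => rw [map_one]; exact Commute.one_left _
    | gen i =>
      induction y using Sh.induction with
      | one => rw [map_one]; exact Commute.one_right _
      | gen j =>
        rw [inc_gen, inc_gen]
        have h1 := Sh.rel (M := M) (p := p) i.1 j.1
        rw [hU i.1 i.2 j.1 j.2, alt_two, alt_two] at h1
        exact h1
      | mul a b ha hb => rw [map_mul]; exact ha.mul_right hb
      | inv a ha => rw [map_inv]; exact ha.inv_right
    | mul a b ha hb => rw [map_mul]; exact ha.mul_left hb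
    | inv a ha => rw [map_inv]; exact ha.inv_left
  let ψ := (inc M p (Subtype.val : U → A) Subtype.val_injective).noncommCoprod
    (inc M p (Subtype.val : ↥(Uᶜ) → A) Subtype.val_injective) hcc
  have hψ : ψ.comp φ = MonoidHom.id _ := by
    apply Sh.hom_ext
    intro i
    rw [MonoidHom.comp_apply, hφ, MonoidHom.id_apply]
    by_cases hi : i ∈ U
    · rw [hF1 i hi, MonoidHom.noncommCoprod_apply, map_one, mul_one, inc_gen]
    · rw [hF2 i hi, MonoidHom.noncommCoprod_apply, map_one, one_mul, inc_gen]
  refine hC.base.of_injective _ _ φ ?_ (hC.base.prod _ _ hs ht)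
  intro x y hxy
  have h1 := DFunLike.congr_fun hψ x
  have h2 := DFunLike.congr_fun hψ y
  rw [MonoidHom.comp_apply, MonoidHom.id_apply] at h1 h2
  rw [← h1, ← h2, hxy]

/-- a set of generators without infinite labels which is not the union of two commuting parts -/
structure IrrClique {B : Type} (M : CoxeterMatrix B) (T : Set B) : Prop where
  finite : T.Finite
  clique : ∀ i ∈ T, ∀ j ∈ T, M i j ≠ 0
  irr : ∀ U V : Set B, U ∪ V = T → Disjoint U V → (∀ i ∈ U, ∀ j ∈ V, M i j = 2) →
    U = ∅ ∨ V = ∅

/-- **finite rank** -/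
theorem cliques_fin (hC : ClosedE C)
    (hW : ∀ (B : Type) [Finite B] (M : CoxeterMatrix B), C M.Group)
    {B : Type} (M : CoxeterMatrix B) (p : B → ℕ) (hp : Adm M p)
    (h : ∀ T : Set B, IrrClique M T →
      C (Sh (pull M (Subtype.val : T → B) Subtype.val_injective) (p ∘ Subtype.val))) :
    ∀ (n : ℕ) (A : Type) [Finite A] (ι : A → B) (hι : Function.Injective ι), Nat.card A = n →
      C (Sh (pull M ι hι) (p ∘ ι)) := by
  intro n
  induction n using Nat.strong_induction_on with
  | _ n ih =>
    intro A _ ι hι hn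
    have hsub : ∀ U : Set A, U ≠ Set.univ →
        C (Sh (pull (pull M ι hι) (Subtype.val : U → A) Subtype.val_injective)
          ((p ∘ ι) ∘ Subtype.val)) := by
      intro U hU
      have hlt : Nat.card U < n := by
        rw [← hn, Nat.card_coe_set_eq, ← Set.ncard_univ]
        exact Set.ncard_lt_ncard (Set.ssubset_univ_iff.2 hU)
      exact ih _ hlt U (ι ∘ Subtype.val) (hι.comp Subtype.val_injective) rfl
    by_cases h1 : ∃ s t : A, s ≠ t ∧ pull M ι hι s t = 0
    · obtain ⟨s, t, hst, h0⟩ := h1
      refine inf_step hC (pull M ι hι) (p ∘ ι) (hp.pull ι hι) (hW _ _) hst h0 (hsub _ ?_) (hsub _ ?_)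
      · intro e
        have : s ∈ ({i | i ≠ s} : Set A) := by rw [e]; trivial
        exact this rfl
      · intro e
        have : t ∈ ({i | i ≠ t} : Set A) := by rw [e]; trivial
        exact this rfl
    · by_cases h2 : ∃ U : Set A, U ≠ ∅ ∧ Uᶜ ≠ ∅ ∧ ∀ i ∈ U, ∀ j ∈ Uᶜ, pull M ι hι i j = 2
      · obtain ⟨U, hU, hU', h3⟩ := h2
        refine two_step hC (pull M ι hι) (p ∘ ι) U h3 (hsub U ?_) (hsub Uᶜ ?_)
        · intro e
          apply hU'
          rw [e, Set.compl_univ]
        · intro e
          apply hU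
          rw [← compl_compl U, e, Set.compl_univ]
      · have hT : IrrClique M (Set.range ι) := by
          refine ⟨Set.finite_range ι, ?_, ?_⟩
          · rintro _ ⟨i, rfl⟩ _ ⟨j, rfl⟩ h0
            by_cases hij : i = j
            · rw [hij, M.diagonal] at h0
              exact absurd h0 one_ne_zero
            · exact h1 ⟨i, j, hij, h0⟩
          · intro U V hUV hdis h3
            by_contra hcon
            push Not at hcon
            apply h2
            have hV : (ι ⁻¹' U)ᶜ = ι ⁻¹' V := by
              ext i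
              have hi : ι i ∈ U ∪ V := by rw [hUV]; exact ⟨i, rfl⟩
              constructor
              · intro hi'
                exact hi.resolve_left hi'
              · intro hi' hi''
                exact Set.disjoint_left.1 hdis hi'' hi'
            refine ⟨ι ⁻¹' U, ?_, ?_, ?_⟩
            · obtain ⟨x, hx⟩ := hcon.1
              have hx' : x ∈ Set.range ι := by rw [← hUV]; exact Or.inl hx
              obtain ⟨i, rfl⟩ := hx'
              exact Set.nonempty_iff_ne_empty.1 ⟨i, hx⟩
            · rw [hV]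
              obtain ⟨x, hx⟩ := hcon.2
              have hx' : x ∈ Set.range ι := by rw [← hUV]; exact Or.inr hx
              obtain ⟨i, rfl⟩ := hx'
              exact Set.nonempty_iff_ne_empty.1 ⟨i, hx⟩
            · rw [hV]
              intro i hi j hj
              exact h3 _ hi _ hj
        have hinj : Function.Injective (fun x : A => (⟨ι x, x, rfl⟩ : Set.range ι)) :=
          fun x y hxy => hι (congrArg Subtype.val hxy)
        exact hC.base.of_injective _ _
          (inc (pull M (Subtype.val : Set.range ι → B) Subtype.val_injective) (p ∘ Subtype.val)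
            (fun x : A => (⟨ι x, x, rfl⟩ : Set.range ι)) hinj)
          (inc_inj (hp.pull _ _) _ hinj) (h _ hT)

/-- **the reduction to irreducible cliques** -/
theorem cliques (hC : ClosedE C)
    (hW : ∀ (B : Type) [Finite B] (M : CoxeterMatrix B), C M.Group)
    {B : Type} (M : CoxeterMatrix B) (p : B → ℕ) (hp : Adm M p)
    (h : ∀ T : Set B, IrrClique M T →
      C (Sh (pull M (Subtype.val : T → B) Subtype.val_injective) (p ∘ Subtype.val))) :
    C (Sh M p) := by
  refine Pool.Agent.Y430.SS.of_directed hC.base (Sh M p) (Finset B) (fun i j => ?_)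
    (fun F => PP M p (F : Set B)) (fun F F' h => PP_mono (by exact_mod_cast h)) (fun x => ?_)
    (fun F => ?_)
  · classical
    exact ⟨i ∪ j, Finset.subset_union_left, Finset.subset_union_right⟩
  · classical
    induction x using Sh.induction with
    | one => exact ⟨∅, one_mem _⟩
    | gen i => exact ⟨{i}, gen_mem (by simp)⟩
    | mul x y hx hy =>
      obtain ⟨F, hF⟩ := hx
      obtain ⟨F', hF'⟩ := hy
      exact ⟨F ∪ F', mul_mem (PP_mono (by simp) hF) (PP_mono (by simp) hF')⟩
    | inv x hx =>
      obtain ⟨F, hF⟩ := hx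
      exact ⟨F, inv_mem hF⟩
  · have : Finite ((F : Set B) : Type) := F.finite_toSet
    exact Pool.Agent.W2helper25.AR.C_PP hC.base hp (F : Set B)
      (cliques_fin hC hW M p hp h _ _ (Subtype.val : ((F : Set B) : Type) → B)
        Subtype.val_injective rfl)

end Pool.Agent.W2helper12.BW
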