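import Pool.Agent.W2helper12.BW.Ep

/-!
# Extensions by groups of functions with finite range
-/

set_option autoImplicit false

namespace Pool.Agent.W2helper12.BW

open Pool.Agent.Y110.FJ
open Pool.Agent.Y462.SS (Closed Wr)
open Pool.Agent.R941.FJ

/-- pulling back functions -/
def hu {Y A T G : Type} [Group A] [Group G] (j : G →* Wr Y A) (hj : ∀ g, (j g).p = 1) (u : T → Y) :
    G →* Wr T A where
  toFun g := ⟨fun t => (j g).s (u t), 1⟩
  map_one' := by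
    rw [map_one]
    rfl
  map_mul' a b := by
    rw [map_mul]
    refine Wr.ext ?_ rfl
    funext t
    show (j a).s ((j b).p (u t)) * (j b).s (u t) = (j a).s (u t) * (j b).s (u t)
    rw [hj b]
    rfl

/-- **functions of finite range**: if `A` and `Q` are in the class, then so is every subgroup of
`(A ≀ Perm Y) × Q` whose elements have sections with finite range and which acts on `Y` through `Q` -/
theorem bool_wr {C : ∀ (G : Type) [Group G], Prop} (hC : ClosedE C) {Y A Q : Type} [Group A]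
    [Group Q] (hA : C A) (hQ : C Q) (Γ : Subgroup (Wr Y A × Q))
    (h1 : ∀ g ∈ Γ, (Set.range g.1.s).Finite) (h2 : ∀ g ∈ Γ, g.2 = 1 → g.1.p = 1) : C Γ := by
  classical
  obtain ⟨pq, hpq⟩ : ∃ pq : Γ →* Q, ∀ g, pq g = g.1.2 :=
    ⟨(MonoidHom.snd _ _).comp Γ.subtype, fun _ => rfl⟩
  refine Pool.Agent.R779.FJ.t_crit Pool.Agent.Y529.FJ.t_ext
    (Pool.Agent.Y961.FJ.t_perm Pool.Agent.Y529.FJ.t_ext) C hC Γ pq.ker ?_ ?_
  · refine hC.base.of_injective _ _ ((Subgroup.subtype _).comp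
      (QuotientGroup.quotientKerEquivRange pq).toMonoidHom) ?_ hQ
    exact Subtype.val_injective.comp (QuotientGroup.quotientKerEquivRange pq).injective
  · intro g E hE hEN
    have hq : ∀ x : Γ, x ∈ pq.ker → x.1.2 = 1 := fun x hx => by
      rw [← hpq]; exact hx
    have hp : ∀ x : Γ, x ∈ pq.ker → x.1.1.p = 1 := fun x hx => h2 _ x.2 (hq x hx)
    -- the labels
    obtain ⟨Lb, Λ, hΛf, hΛg, hΛe⟩ : ∃ (Lb : Type) (Λ : Y → Lb), (Set.range Λ).Finite ∧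
        (∀ y y', Λ y = Λ y' → g.1.1.s y = g.1.1.s y') ∧
        (∀ y y', Λ y = Λ y' → ∀ e ∈ E, e.1.1.s y = e.1.1.s y') := by
      have : Finite E := hE.to_subtype
      refine ⟨A × (E → A), fun y => (g.1.1.s y, fun e => e.1.1.1.s y), ?_, ?_, ?_⟩
      · refine ((h1 g.1 g.2).prod (Set.Finite.pi' (fun e : E => h1 e.1.1 e.1.2))).subset ?_
        rintro _ ⟨y, rfl⟩
        exact ⟨⟨y, rfl⟩, fun e => ⟨y, rfl⟩⟩
      · intro y y' h
        exact congrArg Prod.fst h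
      · intro y y' h e he
        exact congrFun (congrArg Prod.snd h) ⟨e, he⟩
    obtain ⟨σ, hσ⟩ : ∃ σ : Equiv.Perm Y, σ = g.1.1.p := ⟨_, rfl⟩
    -- the pairs of labels
    obtain ⟨F, hF, κ, rep, hrep, hκ1, hκ2, hκ3⟩ : ∃ (F : Type) (_ : Finite F) (κ : Y → F)
        (rep : F → Y), (∀ z, κ (rep z) = z) ∧ (∀ y y', κ y = κ y' → Λ y = Λ y') ∧
        (∀ y y', κ y = κ y' → Λ (σ⁻¹ y) = Λ (σ⁻¹ y')) ∧ True := by
      obtain ⟨κ₀, hκ₀⟩ : ∃ κ₀ : Y → Lb × Lb, κ₀ = fun y => (Λ (σ⁻¹ y), Λ y) := ⟨_, rfl⟩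
      have hfin : (Set.range κ₀).Finite := by
        refine (hΛf.prod hΛf).subset ?_
        rintro _ ⟨y, rfl⟩
        rw [hκ₀]
        exact ⟨⟨σ⁻¹ y, rfl⟩, ⟨y, rfl⟩⟩
      refine ⟨Set.range κ₀, hfin.to_subtype, fun y => ⟨κ₀ y, y, rfl⟩, fun z => z.2.choose,
        fun z => Subtype.ext z.2.choose_spec, ?_, ?_, trivial⟩
      · intro y y' h
        have h' : κ₀ y = κ₀ y' := congrArg Subtype.val h
        rw [hκ₀] at h'
        exact congrArg Prod.snd h'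
      · intro y y' h
        have h' : κ₀ y = κ₀ y' := congrArg Subtype.val h
        rw [hκ₀] at h'
        exact congrArg Prod.fst h'
    obtain ⟨nx, hnx⟩ : ∃ nx : F → F, nx = fun z => κ (σ (rep z)) := ⟨_, rfl⟩
    obtain ⟨pv, hpv⟩ : ∃ pv : F → F, pv = fun z => κ (σ⁻¹ (rep z)) := ⟨_, rfl⟩
    have hnx' : ∀ z, Λ (σ⁻¹ (rep (nx z))) = Λ (rep z) := by
      intro z
      have e1 : κ (rep (nx z)) = κ (σ (rep z)) := by rw [hrep, hnx]
      rw [hκ2 _ _ e1]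
      congr 1
      exact σ.symm_apply_apply _
    have hpv' : ∀ z, Λ (σ⁻¹ (rep z)) = Λ (rep (pv z)) := by
      intro z
      have e1 : κ (rep (pv z)) = κ (σ⁻¹ (rep z)) := by rw [hrep, hpv]
      rw [hκ1 _ _ e1]
    obtain ⟨T₁, hT₁, ι₁, τ₁, ρ₁, hι₁, K₁, hK₁⟩ := per nx
    obtain ⟨T₂, hT₂, ι₂, τ₂, ρ₂, hι₂, K₂, hK₂⟩ := per pv
    obtain ⟨c, hc⟩ : ∃ c : ℤ → F → F,
      c = fun k x => if 0 ≤ k then nx^[k.toNat] x else pv^[(-k).toNat] x := ⟨_, rfl⟩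
    have hcp : ∀ k x, 0 ≤ k → c k x = nx^[k.toNat] x := fun k x hk => by rw [hc]; exact if_pos hk
    have hcn : ∀ k x, k ≤ 0 → c k x = pv^[(-k).toNat] x := by
      intro k x hk
      rcases eq_or_lt_of_le hk with h | h
      · rw [h, hcp 0 x le_rfl]
        rfl
      · rw [hc]
        exact if_neg (not_le.2 h)
    have hc1 : ∀ k x, Λ (σ⁻¹ (rep (c (k + 1) x))) = Λ (rep (c k x)) := by
      intro k x
      rcases lt_or_ge k 0 with hk | hk
      · have e1 : c k x = pv (c (k + 1) x) := by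
          rw [hcn k x hk.le, hcn (k + 1) x (by omega), ← Function.iterate_succ_apply' pv]
          congr 2
          omega
        rw [e1, hpv']
      · have e1 : c (k + 1) x = nx (c k x) := by
          rw [hcp k x hk, hcp (k + 1) x (by omega), ← Function.iterate_succ_apply' nx]
          congr 2
          omega
        rw [e1, hnx']
    have hι₁' : ∀ t, Λ (σ⁻¹ (rep (ι₁ (τ₁ t)))) = Λ (rep (ι₁ t)) := by
      intro t
      rw [hι₁, hnx']
    have hι₂' : ∀ t, Λ (σ⁻¹ (rep (ι₂ (τ₂⁻¹ t)))) = Λ (rep (ι₂ t)) := by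
      intro t
      rw [hpv', ← hι₂]
      congr 3
      exact τ₂.apply_symm_apply t
    have hend1 : ∀ x k, (K₁ : ℤ) ≤ k → c k x = ι₁ ((τ₁ ^ k) (ρ₁ x)) := by
      intro x k hk
      obtain ⟨n, rfl⟩ : ∃ n : ℕ, k = n := ⟨k.toNat, by omega⟩
      rw [hcp _ x (by omega), Int.toNat_natCast, hK₁ x n (by omega), zpow_natCast]
    have hend2 : ∀ x k, k ≤ -(K₂ : ℤ) → c k x = ι₂ (((τ₂⁻¹) ^ k) (ρ₂ x)) := by
      intro x k hk
      obtain ⟨n, rfl⟩ : ∃ n : ℕ, k = -(n : ℤ) := ⟨(-k).toNat, by omega⟩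
      rw [hcn _ x (by omega), neg_neg, Int.toNat_natCast, hK₂ x n (by omega), inv_zpow', neg_neg,
        zpow_natCast]
    -- the homomorphism
    obtain ⟨j, hj⟩ : ∃ j : pq.ker →* Wr Y A, ∀ x, j x = x.1.1.1 :=
      ⟨(MonoidHom.fst _ _).comp (Γ.subtype.comp pq.ker.subtype), fun _ => rfl⟩
    have hjp : ∀ x, (j x).p = 1 := fun x => by rw [hj]; exact hp x.1 x.2
    obtain ⟨Φ, hΦ⟩ : ∃ Φ : pq.ker →* (Wr (ℤ × F) A × (Wr T₁ A × (Wr T₂ A × Multiplicative ℤ))),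
        Φ = (hu j hjp (fun t : ℤ × F => rep (c t.1 t.2))).prod
          ((hu j hjp (fun t => rep (ι₁ t))).prod
            ((hu j hjp (fun t => rep (ι₂ t))).prod 1)) := ⟨_, rfl⟩
    have hmem : ∀ x, Φ x ∈ EP A τ₁ τ₂⁻¹ ρ₁ ρ₂ := by
      intro x
      rw [hΦ]
      refine ⟨fun k x => ?_, rfl, rfl, fun z => ⟨K₁, fun k hk => ?_⟩,
        fun z => ⟨-(K₂ : ℤ), fun k hk => ?_⟩⟩
      · show (k, x) = (k + 0, x)
        rw [add_zero]
      · show (j x).s (rep (c k z)) = (j x).s (rep (ι₁ ((τ₁ ^ k) (ρ₁ z))))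
        rw [hend1 z k hk]
      · show (j x).s (rep (c k z)) = (j x).s (rep (ι₂ (((τ₂⁻¹) ^ k) (ρ₂ z))))
        rw [hend2 z k hk]
    obtain ⟨sh, hsh⟩ : ∃ sh : Equiv.Perm (ℤ × F), ∀ k x, sh (k, x) = (k + 1, x) :=
      ⟨(Equiv.addRight (1 : ℤ)).prodCongr (Equiv.refl F), fun _ _ => rfl⟩
    obtain ⟨p, hpd⟩ : ∃ p : Wr (ℤ × F) A × (Wr T₁ A × (Wr T₂ A × Multiplicative ℤ)),
        p = (⟨fun t => g.1.1.s (rep (c t.1 t.2)), sh⟩, ⟨fun t => g.1.1.s (rep (ι₁ t)), τ₁⟩,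
          ⟨fun t => g.1.1.s (rep (ι₂ t)), τ₂⁻¹⟩, Multiplicative.ofAdd 1) := ⟨_, rfl⟩
    have hpm : p ∈ EP A τ₁ τ₂⁻¹ ρ₁ ρ₂ := by
      rw [hpd]
      refine ⟨fun k x => hsh k x, ?_, ?_, fun z => ⟨K₁, fun k hk => ?_⟩,
        fun z => ⟨-(K₂ : ℤ), fun k hk => ?_⟩⟩
      · show τ₁ = τ₁ ^ (1 : ℤ)
        rw [zpow_one]
      · show τ₂⁻¹ = (τ₂⁻¹) ^ (1 : ℤ)
        rw [zpow_one]
      · show g.1.1.s (rep (c k z)) = g.1.1.s (rep (ι₁ ((τ₁ ^ k) (ρ₁ z))))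
        rw [hend1 z k hk]
      · show g.1.1.s (rep (c k z)) = g.1.1.s (rep (ι₂ (((τ₂⁻¹) ^ k) (ρ₂ z))))
        rw [hend2 z k hk]
    -- the conjugates
    have hcj : ∀ e ∈ E, ∀ y, (g * e * g⁻¹).1.1.s y =
        g.1.1.s (σ⁻¹ y) * e.1.1.s (σ⁻¹ y) * (g.1.1.s (σ⁻¹ y))⁻¹ := by
      intro e he y
      show g.1.1.s (e.1.1.p (g.1.1.p⁻¹ y)) * e.1.1.s (g.1.1.p⁻¹ y) * (g.1.1.s (g.1.1.p⁻¹ y))⁻¹ = _
      rw [hp e (hEN he), hσ]
      rfl
    have hrel : ∀ (T : Type) (τ : Equiv.Perm T) (u : T → Y),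
        (∀ t, Λ (σ⁻¹ (u (τ t))) = Λ (u t)) → ∀ x y : pq.ker, x.1 ∈ E → y.1 = g * x.1 * g⁻¹ →
        hu j hjp u y * ⟨fun t => g.1.1.s (u t), τ⟩ = ⟨fun t => g.1.1.s (u t), τ⟩ * hu j hjp u x := by
      intro T τ u hu' x y hx hy
      refine Wr.ext ?_ ?_
      · funext t
        show (j y).s (u (τ t)) * g.1.1.s (u t) = g.1.1.s (u t) * (j x).s (u t)
        rw [hj, hj, hy, hcj x.1 hx, hΛg _ _ (hu' t), hΛe _ _ (hu' t) x.1 hx, inv_mul_cancel_right]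
      · show 1 * τ = τ * 1
        rw [one_mul, mul_one]
    have hle : Subgroup.closure (E ∪ (fun x => g * x * g⁻¹) '' E) ≤ pq.ker := by
      rw [Subgroup.closure_le]
      refine Set.union_subset hEN ?_
      rintro _ ⟨x, hx, rfl⟩
      exact Subgroup.Normal.conj_mem inferInstance x (hEN hx) g
    have hcl : ∀ w ∈ Subgroup.closure (E ∪ (fun x => g * x * g⁻¹) '' E), w.1.1.p = 1 ∧
        ∀ y y', κ y = κ y' → w.1.1.s y = w.1.1.s y' := by
      intro w hw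
      refine ⟨hp w (hle hw), ?_⟩
      induction hw using Subgroup.closure_induction with
      | mem e he =>
        intro y y' hy
        rcases he with he | ⟨x, hx, rfl⟩
        · exact hΛe y y' (hκ1 y y' hy) e he
        · show (g * x * g⁻¹).1.1.s y = (g * x * g⁻¹).1.1.s y'
          rw [hcj x hx, hcj x hx, hΛg _ _ (hκ2 y y' hy), hΛe _ _ (hκ2 y y' hy) x hx]
      | one => intro y y' _; rfl
      | mul a b ha hb iha ihb =>
        intro y y' hy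
        show a.1.1.s (b.1.1.p y) * b.1.1.s y = a.1.1.s (b.1.1.p y') * b.1.1.s y'
        rw [hp b (hle hb), Equiv.Perm.one_apply, Equiv.Perm.one_apply, iha y y' hy, ihb y y' hy]
      | inv a ha iha =>
        intro y y' hy
        show (a.1.1.s (a.1.1.p⁻¹ y))⁻¹ = (a.1.1.s (a.1.1.p⁻¹ y'))⁻¹
        rw [hp a (hle ha), inv_one, Equiv.Perm.one_apply, Equiv.Perm.one_apply, iha y y' hy]
    refine ⟨EP A τ₁ τ₂⁻¹ ρ₁ ρ₂, inferInstance,
      (Φ.codRestrict _ hmem).comp (Subgroup.inclusion hle), ⟨p, hpm⟩, EP_C τ₁ τ₂⁻¹ ρ₁ ρ₂ hC hA,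
      ?_, ?_⟩
    · rw [injective_iff_map_eq_one]
      intro w hw
      have e1 : (Φ (Subgroup.inclusion hle w)).1 = 1 := congrArg
        (fun z : EP A τ₁ τ₂⁻¹ ρ₁ ρ₂ => z.1.1) hw
      rw [hΦ] at e1
      have e2 : ∀ x, w.1.1.1.s (rep x) = 1 := by
        intro x
        have e3 := congrFun (congrArg Wr.s e1) (0, x)
        have e4 : (j (Subgroup.inclusion hle w)).s (rep (c 0 x)) = 1 := e3
        rw [hj, hcp 0 x le_rfl] at e4
        exact e4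
      obtain ⟨e5, e6⟩ := hcl w.1 w.2
      refine Subtype.ext (Subtype.ext (Prod.ext (Wr.ext ?_ e5) (hq w.1 (hle w.2))))
      funext y
      rw [e6 y (rep (κ y)) (hrep _).symm, e2]
      rfl
    · intro x y hx hy
      rw [eq_mul_inv_iff_mul_eq]
      apply Subtype.ext
      show Φ (Subgroup.inclusion hle y) * p = p * Φ (Subgroup.inclusion hle x)
      rw [hΦ, hpd]
      refine Prod.ext ?_ (Prod.ext ?_ (Prod.ext ?_ ?_))
      · exact hrel (ℤ × F) sh _ (fun t => by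
          obtain ⟨k, z⟩ := t
          rw [hsh]
          exact hc1 k z) _ _ hx hy
      · exact hrel T₁ τ₁ _ hι₁' _ _ hx hy
      · exact hrel T₂ τ₂⁻¹ _ hι₂' _ _ hx hy
      · show 1 * Multiplicative.ofAdd (1 : ℤ) = Multiplicative.ofAdd (1 : ℤ) * 1
        rw [one_mul, mul_one]

end Pool.Agent.W2helper12.BW
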