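import Pool.Agent.K7.H87.FJ6.Lek
import Pool.Agent.W2helper12.BW.Main

/-!
# Shephard groups map to extensions of groups of functions with finite range by the Coxeter group
-/

set_option autoImplicit false

namespace Pool.Agent.W2helper12.BW

open Pool.Agent.Y110.FJ
open Pool.Agent.Y462.SS (Closed Wr)
open Pool.Agent.Helper741 CoxeterSystem Real
open Pool.Agent.K7.H87.FJ6

section coc

variable {A B : Type} [Fintype B] [DecidableEq B] {M : CoxeterMatrix B}
variable {W : Type} [Group W] (cs : CoxeterSystem M W) {po : B → ℕ} (ho : Adm M po) (ι : A → B)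
  (hι : Function.Injective ι)

/-- the action commutes with right multiplication -/
theorem act_mul (g : Sh M po) : ∀ (a b : Sh (pull M ι hι) (po ∘ ι)) (v : {v : W // Mn cs ι v}),
    act cs ho ι hι g (a * b, v) =
      ((act cs ho ι hι g (a, v)).1 * b, (act cs ho ι hι g (a, v)).2) := by
  induction g using Sh.induction with
  | one => intro a b v; rw [map_one]; rfl
  | gen i =>
    intro a b v
    rw [act, Sh.lift_gen, prm_apply, prm_apply]
    by_cases h : ∃ x, cs.simple i * v.1 = v.1 * cs.simple (ι x)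
    · obtain ⟨x, hx⟩ := h
      rw [stp_pos (ω := (a * b, v)) hx, stp_pos (ω := (a, v)) hx, mul_assoc]
    · rw [stp_neg (ω := (a * b, v)) h, stp_neg (ω := (a, v)) h]
  | mul x y hx hy =>
    intro a b v
    rw [map_mul, Equiv.Perm.mul_apply, Equiv.Perm.mul_apply, hy]
    exact hx _ _ _
  | inv x hx =>
    intro a b v
    rw [map_inv, Equiv.Perm.inv_eq_iff_eq]
    rw [hx]
    have h1 : act cs ho ι hι x ((act cs ho ι hι x)⁻¹ (a, v)) = (a, v) :=
      (act cs ho ι hι x).apply_symm_apply _
    have h2 : act cs ho ι hι x (((act cs ho ι hι x)⁻¹ (a, v)).1,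
      ((act cs ho ι hι x)⁻¹ (a, v)).2) = (a, v) := h1
    rw [h2]

/-- the section -/
noncomputable def sc (g : Sh M po) (v : {v : W // Mn cs ι v}) : Sh (pull M ι hι) (po ∘ ι) :=
  (act cs ho ι hι g (1, v)).1

/-- the action on the minimal elements -/
noncomputable def pc (g : Sh M po) (v : {v : W // Mn cs ι v}) : {v : W // Mn cs ι v} :=
  (act cs ho ι hι g (1, v)).2

theorem act_eq (g : Sh M po) (a : Sh (pull M ι hι) (po ∘ ι)) (v : {v : W // Mn cs ι v}) :
    act cs ho ι hι g (a, v) = (sc cs ho ι hι g v * a, pc cs ho ι hι g v) := by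
  have h := act_mul cs ho ι hι g 1 a v
  rw [one_mul] at h
  exact h

theorem pc_one (v : {v : W // Mn cs ι v}) : pc cs ho ι hι 1 v = v := by
  unfold pc
  rw [map_one]
  rfl

theorem act_mul' (g h : Sh M po) (v : {v : W // Mn cs ι v}) :
    act cs ho ι hι (g * h) (1, v) = (sc cs ho ι hι g (pc cs ho ι hι h v) * sc cs ho ι hι h v,
      pc cs ho ι hι g (pc cs ho ι hι h v)) := by
  rw [map_mul, Equiv.Perm.mul_apply, act_eq cs ho ι hι h, mul_one, act_eq]

theorem pc_mul (g h : Sh M po) (v : {v : W // Mn cs ι v}) :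
    pc cs ho ι hι (g * h) v = pc cs ho ι hι g (pc cs ho ι hι h v) := by
  show (act cs ho ι hι (g * h) (1, v)).2 = _
  rw [act_mul']

theorem sc_mul (g h : Sh M po) (v : {v : W // Mn cs ι v}) :
    sc cs ho ι hι (g * h) v = sc cs ho ι hι g (pc cs ho ι hι h v) * sc cs ho ι hι h v := by
  show (act cs ho ι hι (g * h) (1, v)).1 = _
  rw [act_mul']

/-- the permutation -/
noncomputable def ppm (g : Sh M po) : Equiv.Perm {v : W // Mn cs ι v} where
  toFun := pc cs ho ι hι g
  invFun := pc cs ho ι hι g⁻¹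
  left_inv v := by rw [← pc_mul, inv_mul_cancel, pc_one]
  right_inv v := by rw [← pc_mul, mul_inv_cancel, pc_one]

/-- **the cocycle** -/
noncomputable def coc : Sh M po →* Wr {v : W // Mn cs ι v} (Sh (pull M ι hι) (po ∘ ι)) where
  toFun g := ⟨sc cs ho ι hι g, ppm cs ho ι hι g⟩
  map_one' := by
    refine Wr.ext ?_ ?_
    · funext v
      show (act cs ho ι hι 1 (1, v)).1 = 1
      rw [map_one]
      rfl
    · ext1 v
      exact pc_one cs ho ι hι v
  map_mul' g h := by
    refine Wr.ext ?_ ?_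
    · funext v
      exact sc_mul cs ho ι hι g h v
    · ext1 v
      exact pc_mul cs ho ι hι g h v

theorem coc_range [Finite A] (g : Sh M po) : (Set.range (coc cs ho ι hι g).s).Finite := by
  induction g using Sh.induction with
  | one =>
    rw [map_one]
    refine (Set.finite_singleton 1).subset ?_
    rintro _ ⟨v, rfl⟩
    rfl
  | gen i =>
    refine ((Set.finite_range (fun x : A => Sh.gen (pull M ι hι) (po ∘ ι) x)).insert 1).subset ?_
    rintro _ ⟨v, rfl⟩
    show (act cs ho ι hι (Sh.gen M po i) (1, v)).1 ∈ _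
    rw [act, Sh.lift_gen, prm_apply]
    by_cases h : ∃ x, cs.simple i * v.1 = v.1 * cs.simple (ι x)
    · obtain ⟨x, hx⟩ := h
      rw [stp_pos (ω := (1, v)) hx]
      right
      exact ⟨x, (mul_one _).symm⟩
    · rw [stp_neg (ω := (1, v)) h]
      left
      rfl
  | mul x y hx hy =>
    rw [map_mul]
    refine (Set.Finite.image2 (· * ·) hx hy).subset ?_
    rintro _ ⟨v, rfl⟩
    exact ⟨_, ⟨(coc cs ho ι hι y).p v, rfl⟩, _, ⟨v, rfl⟩, rfl⟩
  | inv x hx =>
    rw [map_inv]
    refine (hx.image (·⁻¹)).subset ?_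
    rintro _ ⟨v, rfl⟩
    exact ⟨_, ⟨(coc cs ho ι hι x).p⁻¹ v, rfl⟩, rfl⟩

include ho in
/-- the map to the Coxeter group -/
theorem exists_toW : ∃ pw : Sh M po →* W, ∀ i, pw (Sh.gen M po i) = cs.simple i := by
  refine ⟨Sh.lift cs.simple (fun _ _ =>
    alt_comm_of_pow (cs.simple_mul_simple_self _) (cs.simple_mul_simple_self _)
      (cs.simple_mul_simple_pow _ _)) (fun i => ?_), fun i => Sh.lift_gen _ _ _ _⟩
  obtain ⟨k, hk⟩ := ho.even i
  rw [hk, ← two_mul, pow_mul, cs.simple_sq, one_pow]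

theorem tot_act {pw : Sh M po →* W} (hpw : ∀ i, pw (Sh.gen M po i) = cs.simple i) (g : Sh M po) :
    ∀ ω, tot cs ho ι hι (act cs ho ι hι g ω) = pw g * tot cs ho ι hι ω := by
  induction g using Sh.induction with
  | one => intro ω; rw [map_one, map_one, one_mul]; rfl
  | gen i =>
    intro ω
    rw [hpw, ← tot_stp, act, Sh.lift_gen, prm_apply]
  | mul x y hx hy =>
    intro ω
    rw [map_mul, map_mul, Equiv.Perm.mul_apply, hx, hy, mul_assoc]
  | inv x hx =>
    intro ω
    have h1 : act cs ho ι hι x (act cs ho ι hι x⁻¹ ω) = ω := by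
      rw [map_inv]
      exact (act cs ho ι hι x).apply_symm_apply _
    have h2 := hx (act cs ho ι hι x⁻¹ ω)
    rw [h1] at h2
    rw [map_inv pw, h2, inv_mul_cancel_left]

/-- minimal elements are unique in their cosets -/
theorem Mn_unique (v v' : W) (hv : Mn cs ι v) (hv' : Mn cs ι v') (a : Sh (pull M ι hι) (po ∘ ι))
    (h : v' = v * bar cs ho ι hι a) : v' = v := by
  have h1 : bar cs ho ι hι a = 1 := by
    by_contra hne
    obtain ⟨i, hi⟩ : ∃ i, ¬ 0 ≤ geo cs (bar cs ho ι hι a) (ee i) := by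
      by_contra hcon
      push Not at hcon
      exact hne (eq_one_of_geo cs _ hcon)
    have hi' := (sgn cs (bar cs ho ι hι a) i).resolve_left hi
    obtain ⟨x, rfl⟩ : ∃ x, ι x = i := by
      by_contra hcon
      push Not at hcon
      have h2 := coord cs ho ι hι a (ee i) i hcon
      have h3 := hi' i
      rw [h2] at h3
      have h4 : ee i i = (1 : ℝ) := by simp [ee]
      rw [h4] at h3
      norm_num at h3
    have hz : ∀ d, (∀ y, ι y ≠ d) → geo cs (bar cs ho ι hι a) (ee (ι x)) d = 0 := by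
      intro d hd
      rw [coord cs ho ι hι a _ d hd]
      simp [ee, (hd x).symm]
    have h5 : geo cs v' (ee (ι x)) = 0 := by
      refine le_antisymm (fun e => ?_) (hv' x)
      rw [h, geo_mul_apply, geo_sum]
      refine Finset.sum_nonpos fun d _ => ?_
      by_cases hd : ∃ y, ι y = d
      · obtain ⟨y, rfl⟩ := hd
        exact mul_nonpos_of_nonpos_of_nonneg (hi' _) (hv y e)
      · push Not at hd
        rw [hz d hd, zero_mul]
    exact geo_ee_ne_zero cs v' (ι x) h5
  rw [h, h1, mul_one]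

theorem ppm_one {pw : Sh M po →* W} (hpw : ∀ i, pw (Sh.gen M po i) = cs.simple i) (g : Sh M po)
    (hg : pw g = 1) : (coc cs ho ι hι g).p = 1 := by
  ext1 v
  show pc cs ho ι hι g v = v
  have h1 := tot_act cs ho ι hι hpw g (1, v)
  have h2 : pc cs ho ι hι g v * bar cs ho ι hι (sc cs ho ι hι g v) =
      pw g * (v.1 * bar cs ho ι hι 1) := h1
  rw [hg, map_one, one_mul, mul_one] at h2
  exact Subtype.ext (Mn_unique cs ho ι hι _ _ (pc cs ho ι hι g v).2 v.2 _ h2.symm).symm

end coc

/-- **parabolic subgroups**: if the parabolic subgroup and the Coxeter group are in the class, then the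
Shephard group has a homomorphism to a group in the class which is injective on the parabolic -/
theorem retr {C : ∀ (G : Type) [Group G], Prop} (hC : ClosedE C) {A B : Type} [Finite B]
    {M : CoxeterMatrix B} {p : B → ℕ} (h : Adm M p) (ι : A → B) (hι : Function.Injective ι)
    (hW : C M.Group) (hA : C (Sh (pull M ι hι) (p ∘ ι))) :
    ∃ (P : Type) (_ : Group P) (f : Sh M p →* P), C P ∧ ∀ a, f (inc M p ι hι a) = 1 → a = 1 := by
  classical
  have := Fintype.ofFinite B
  have hAf : Finite A := Finite.of_injective ι hι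
  obtain ⟨pw, hpw⟩ := exists_toW (cs := M.toCoxeterSystem) (ho := h)
  let Φ := (coc M.toCoxeterSystem h ι hι).prod pw
  refine ⟨Φ.range, inferInstance, Φ.rangeRestrict, ?_, ?_⟩
  · refine bool_wr hC hA hW Φ.range ?_ ?_
    · rintro _ ⟨g, rfl⟩
      exact coc_range M.toCoxeterSystem h ι hι g
    · rintro _ ⟨g, rfl⟩ hg
      exact ppm_one M.toCoxeterSystem h ι hι hpw g hg
  · intro a ha
    have h1 : Φ (inc M p ι hι a) = 1 := congrArg Subtype.val ha
    have h2 : (coc M.toCoxeterSystem h ι hι (inc M p ι hι a)) = 1 := congrArg Prod.fst h1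
    have h3 := congrFun (congrArg Wr.s h2) ⟨1, Mn_one M.toCoxeterSystem ι⟩
    have h4 : (act M.toCoxeterSystem h ι hι (inc M p ι hι a) (1, ⟨1, Mn_one M.toCoxeterSystem ι⟩)).1 =
      1 := h3
    rw [act_inc, mul_one] at h4
    exact h4

end Pool.Agent.W2helper12.BW
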