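import Pool.Agent.W2helper12.BW.Fs

/-!
# Eventually periodic functions on the integers
-/

set_option autoImplicit false

namespace Pool.Agent.W2helper12.BW

open Pool.Agent.Y110.FJ
open Pool.Agent.Y462.SS (Closed Wr)
open Pool.Agent.R941.FJ

/-- the iterates of a self-map of a finite set -/
theorem per {F : Type} [Finite F] (n : F → F) : ∃ (T : Type) (_ : Finite T) (ι : T → F)
    (τ : Equiv.Perm T) (ρ : F → T), (∀ t, ι (τ t) = n (ι t)) ∧
      ∃ K : ℕ, ∀ x, ∀ k, K ≤ k → n^[k] x = ι ((τ ^ k) (ρ x)) := by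
  obtain ⟨i, j, hij, heq⟩ : ∃ i j : ℕ, i < j ∧ n^[i] = n^[j] := by
    obtain ⟨i, j, hne, heq⟩ := Finite.exists_ne_map_eq_of_infinite (fun k : ℕ => n^[k])
    rcases lt_or_gt_of_ne hne with h | h
    · exact ⟨i, j, h, heq⟩
    · exact ⟨j, i, h, heq.symm⟩
  obtain ⟨b, hb⟩ : ∃ b : ℕ, b = j - i := ⟨_, rfl⟩
  have h1 : ∀ k, i ≤ k → n^[k + b] = n^[k] := by
    intro k hk
    obtain ⟨l, rfl⟩ := Nat.exists_eq_add_of_le hk
    rw [show i + l + b = l + j by omega, Function.iterate_add, ← heq, ← Function.iterate_add,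
      add_comm]
  have h2 : ∀ r k, i ≤ k → n^[k + r * b] = n^[k] := by
    intro r
    induction r with
    | zero => intro k _; rw [zero_mul, add_zero]
    | succ r ih =>
      intro k hk
      rw [show k + (r + 1) * b = (k + r * b) + b by ring, h1 _ (by omega), ih k hk]
  obtain ⟨M, hM⟩ : ∃ M : ℕ, M = (i + 1) * b := ⟨_, rfl⟩
  have hb0 : 0 < b := by omega
  have hMi : i + 1 ≤ M := by
    rw [hM]
    exact Nat.le_mul_of_pos_right _ hb0
  have h3 : ∀ x, n^[M] (n^[M] x) = n^[M] x := by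
    intro x
    rw [← Function.iterate_add_apply]
    nth_rewrite 2 [hM]
    rw [h2 (i + 1) M (by omega)]
  have h4 : ∀ x, n^[M] (n x) = n (n^[M] x) := by
    intro x
    rw [← Function.iterate_succ_apply, Function.iterate_succ_apply']
  have h5 : ∀ k x, n^[M] (n^[k] x) = n^[k] (n^[M] x) := by
    intro k x
    rw [← Function.iterate_add_apply, ← Function.iterate_add_apply, add_comm]
  let T : Type := {z : F // n^[M] z = z}
  let τ : Equiv.Perm T :=
    { toFun := fun z => ⟨n z.1, by rw [h4, z.2]⟩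
      invFun := fun z => ⟨n^[M - 1] z.1, by rw [h5, z.2]⟩
      left_inv := by
        rintro ⟨z, hz⟩
        apply Subtype.ext
        show n^[M - 1] (n z) = z
        rw [← Function.iterate_succ_apply, show (M - 1).succ = M by omega, hz]
      right_inv := by
        rintro ⟨z, hz⟩
        apply Subtype.ext
        show n (n^[M - 1] z) = z
        rw [← Function.iterate_succ_apply' n, show (M - 1).succ = M by omega, hz] }
  have hτ : ∀ k : ℕ, ∀ z : T, ((τ ^ k) z).1 = n^[k] z.1 := by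
    intro k
    induction k with
    | zero => intro z; rfl
    | succ k ih =>
      intro z
      rw [pow_succ', Equiv.Perm.mul_apply, Function.iterate_succ_apply', ← ih]
      rfl
  refine ⟨T, inferInstance, fun z => z.1, τ, fun x => ⟨n^[M] x, h3 x⟩, fun _ => rfl, i,
    fun x k hk => ?_⟩
  show n^[k] x = ((τ ^ k) ⟨n^[M] x, h3 x⟩).1
  rw [hτ, ← Function.iterate_add_apply]
  rw [hM, h2 (i + 1) k hk]

section ep

variable {F T₁ T₂ : Type} (A : Type) [Group A] (τ₁ : Equiv.Perm T₁) (τ₂ : Equiv.Perm T₂)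
  (ρ₁ : F → T₁) (ρ₂ : F → T₂)

/-- functions on `ℤ × F` which are eventually periodic in both directions, with the shifts -/
def EP : Subgroup (Wr (ℤ × F) A × (Wr T₁ A × (Wr T₂ A × Multiplicative ℤ))) where
  carrier := {g | (∀ k x, g.1.p (k, x) = (k + Multiplicative.toAdd g.2.2.2, x)) ∧
    g.2.1.p = τ₁ ^ (Multiplicative.toAdd g.2.2.2) ∧
    g.2.2.1.p = τ₂ ^ (Multiplicative.toAdd g.2.2.2) ∧
    (∀ x, ∃ K : ℤ, ∀ k, K ≤ k → g.1.s (k, x) = g.2.1.s ((τ₁ ^ k) (ρ₁ x))) ∧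
    (∀ x, ∃ K : ℤ, ∀ k, k ≤ K → g.1.s (k, x) = g.2.2.1.s ((τ₂ ^ k) (ρ₂ x)))}
  one_mem' := by
    refine ⟨fun k x => ?_, rfl, rfl, fun x => ⟨0, fun _ _ => rfl⟩, fun x => ⟨0, fun _ _ => rfl⟩⟩
    show (k, x) = (k + 0, x)
    rw [add_zero]
  mul_mem' := by
    rintro ⟨a, a1, a2, m⟩ ⟨b, b1, b2, l⟩ ⟨h1, h2, h3, h4, h5⟩ ⟨h1', h2', h3', h4', h5'⟩
    dsimp only at h1 h2 h3 h4 h5 h1' h2' h3' h4' h5'
    refine ⟨fun k x => ?_, ?_, ?_, fun x => ?_, fun x => ?_⟩
    · show a.p (b.p (k, x)) = (k + Multiplicative.toAdd (m * l), x)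
      rw [h1', h1, toAdd_mul]
      congr 1
      ring
    · show a1.p * b1.p = τ₁ ^ (Multiplicative.toAdd (m * l))
      rw [h2, h2', ← zpow_add, toAdd_mul]
    · show a2.p * b2.p = τ₂ ^ (Multiplicative.toAdd (m * l))
      rw [h3, h3', ← zpow_add, toAdd_mul]
    · obtain ⟨K, hK⟩ := h4 x
      obtain ⟨K', hK'⟩ := h4' x
      refine ⟨max K' (K - Multiplicative.toAdd l), fun k hk => ?_⟩
      have e1 := le_max_left K' (K - Multiplicative.toAdd l)
      have e2 := le_max_right K' (K - Multiplicative.toAdd l)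
      show a.s (b.p (k, x)) * b.s (k, x) =
        a1.s (b1.p ((τ₁ ^ k) (ρ₁ x))) * b1.s ((τ₁ ^ k) (ρ₁ x))
      rw [h1', hK _ (by omega), hK' _ (by omega), h2', ← Equiv.Perm.mul_apply, ← zpow_add, add_comm]
    · obtain ⟨K, hK⟩ := h5 x
      obtain ⟨K', hK'⟩ := h5' x
      refine ⟨min K' (K - Multiplicative.toAdd l), fun k hk => ?_⟩
      have e1 := min_le_left K' (K - Multiplicative.toAdd l)
      have e2 := min_le_right K' (K - Multiplicative.toAdd l)
      show a.s (b.p (k, x)) * b.s (k, x) =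
        a2.s (b2.p ((τ₂ ^ k) (ρ₂ x))) * b2.s ((τ₂ ^ k) (ρ₂ x))
      rw [h1', hK _ (by omega), hK' _ (by omega), h3', ← Equiv.Perm.mul_apply, ← zpow_add, add_comm]
  inv_mem' := by
    rintro ⟨a, a1, a2, m⟩ ⟨h1, h2, h3, h4, h5⟩
    dsimp only at h1 h2 h3 h4 h5
    have h1' : ∀ k x, a.p⁻¹ (k, x) = (k - Multiplicative.toAdd m, x) := by
      intro k x
      rw [Equiv.Perm.inv_eq_iff_eq, h1, sub_add_cancel]
    refine ⟨fun k x => ?_, ?_, ?_, fun x => ?_, fun x => ?_⟩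
    · show a.p⁻¹ (k, x) = (k + Multiplicative.toAdd m⁻¹, x)
      rw [h1', toAdd_inv, sub_eq_add_neg]
    · show (a1.p)⁻¹ = τ₁ ^ (Multiplicative.toAdd m⁻¹)
      rw [h2, toAdd_inv, zpow_neg]
    · show (a2.p)⁻¹ = τ₂ ^ (Multiplicative.toAdd m⁻¹)
      rw [h3, toAdd_inv, zpow_neg]
    · obtain ⟨K, hK⟩ := h4 x
      refine ⟨K + Multiplicative.toAdd m, fun k hk => ?_⟩
      show (a.s (a.p⁻¹ (k, x)))⁻¹ = (a1.s (a1.p⁻¹ ((τ₁ ^ k) (ρ₁ x))))⁻¹
      rw [h1', hK _ (by omega), h2, ← Equiv.Perm.mul_apply, ← zpow_neg, ← zpow_add,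
        neg_add_eq_sub]
    · obtain ⟨K, hK⟩ := h5 x
      refine ⟨K + Multiplicative.toAdd m, fun k hk => ?_⟩
      show (a.s (a.p⁻¹ (k, x)))⁻¹ = (a2.s (a2.p⁻¹ ((τ₂ ^ k) (ρ₂ x))))⁻¹
      rw [h1', hK _ (by omega), h3, ← Equiv.Perm.mul_apply, ← zpow_neg, ← zpow_add,
        neg_add_eq_sub]

variable {A}

theorem EP_C {C : ∀ (G : Type) [Group G], Prop} (hC : ClosedE C) [Finite F] [Finite T₁]
    [Finite T₂] (hA : C A) : C (EP A τ₁ τ₂ ρ₁ ρ₂) := by
  refine fs hC hA (Q := Wr T₁ A × (Wr T₂ A × Multiplicative ℤ)) ?_ _ ?_ ?_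
  · exact hC.base.prod _ _ (Pool.Agent.Y812.SS.t_wr C hC.base _ _ inferInstance hA)
      (hC.base.prod _ _ (Pool.Agent.Y812.SS.t_wr C hC.base _ _ inferInstance hA) hC.base.int)
  · rintro ⟨g, g1, g2, m⟩ ⟨h1, h2, h3, h4, h5⟩ h6
    have e1 : g1 = 1 := congrArg Prod.fst h6
    have e2 : g2 = 1 := congrArg (fun z : Wr T₁ A × (Wr T₂ A × Multiplicative ℤ) => z.2.1) h6
    have e3 : m = 1 := congrArg (fun z : Wr T₁ A × (Wr T₂ A × Multiplicative ℤ) => z.2.2) h6
    dsimp only at h1 h2 h3 h4 h5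
    subst e1 e2 e3
    refine ⟨?_, ?_⟩
    · ext1 ⟨k, x⟩
      show g.p (k, x) = (k, x)
      rw [h1, toAdd_one, add_zero]
    · choose K hK using h4
      choose K' hK' using h5
      obtain ⟨b, hb⟩ := (Set.finite_range K).bddAbove
      obtain ⟨a, ha⟩ := (Set.finite_range K').bddBelow
      refine ((Set.finite_Icc a b).prod (Set.finite_univ (α := F))).subset ?_
      rintro ⟨k, x⟩ hk
      refine ⟨⟨?_, ?_⟩, trivial⟩
      · by_contra hlt
        apply hk
        show g.s (k, x) = 1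
        have : a ≤ K' x := ha ⟨x, rfl⟩
        rw [hK' x k (by dsimp only at hlt; omega)]
        rfl
      · by_contra hlt
        apply hk
        show g.s (k, x) = 1
        have : K x ≤ b := hb ⟨x, rfl⟩
        rw [hK x k (by dsimp only at hlt; omega)]
        rfl
  · intro f hf
    refine ⟨fun k x => ?_, rfl, rfl, fun x => ?_, fun x => ?_⟩
    · show (k, x) = (k + 0, x)
      rw [add_zero]
    · obtain ⟨b, hb⟩ := (hf.image Prod.fst).bddAbove
      refine ⟨b + 1, fun k hk => ?_⟩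
      show f (k, x) = 1
      by_contra hne
      have : k ≤ b := hb ⟨(k, x), hne, rfl⟩
      omega
    · obtain ⟨a, ha⟩ := (hf.image Prod.fst).bddBelow
      refine ⟨a - 1, fun k hk => ?_⟩
      show f (k, x) = 1
      by_contra hne
      have : a ≤ k := ha ⟨(k, x), hne, rfl⟩
      omega

end ep

end Pool.Agent.W2helper12.BW
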