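import Pool.Agent.R941.FJ.Rdp
import Pool.Agent.R941.FJ.Hyper

/-!
# Extensions by groups of functions with finite support
-/

set_option autoImplicit false

namespace Pool.Agent.W2helper12.BW

open Pool.Agent.Y110.FJ
open Pool.Agent.Y462.SS (Closed Wr)
open Pool.Agent.R941.FJ

section er

variable {I A Q : Type} [Group A] [Group Q]

/-- the stabilizer of a point -/
def St (I A Q : Type) [Group A] [Group Q] (i : I) : Subgroup (Wr I A × Q) where
  carrier := {g | g.1.p i = i}
  one_mem' := rfl
  mul_mem' := by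
    intro a b ha hb
    show a.1.p (b.1.p i) = i
    rw [show b.1.p i = i from hb]
    exact ha
  inv_mem' := by
    intro a ha
    show a.1.p⁻¹ i = i
    rw [Equiv.Perm.inv_eq_iff_eq]
    exact (show a.1.p i = i from ha).symm

/-- the value at the point -/
def ev (i : I) : St I A Q i →* A where
  toFun g := g.1.1.s i
  map_one' := rfl
  map_mul' a b := by
    show a.1.1.s (b.1.1.p i) * b.1.1.s i = _
    rw [show b.1.1.p i = i from b.2]

open Classical in
/-- erasing the value at the point -/
noncomputable def er (i : I) : St I A Q i →* Wr I A × Q where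
  toFun g := (⟨fun j => if j = i then 1 else g.1.1.s j, g.1.1.p⟩, g.1.2)
  map_one' := by
    refine Prod.ext (Wr.ext ?_ rfl) rfl
    funext j
    show (if j = i then 1 else (1 : A)) = 1
    rw [ite_self]
  map_mul' a b := by
    refine Prod.ext (Wr.ext ?_ rfl) rfl
    funext j
    show (if j = i then 1 else a.1.1.s (b.1.1.p j) * b.1.1.s j) =
      (if b.1.1.p j = i then 1 else a.1.1.s (b.1.1.p j)) * (if j = i then 1 else b.1.1.s j)
    by_cases hj : j = i
    · have h1 : b.1.1.p j = i := by rw [hj]; exact b.2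
      rw [if_pos hj, if_pos h1, if_pos hj, one_mul]
    · have h1 : b.1.1.p j ≠ i := by
        intro h
        apply hj
        apply b.1.1.p.injective
        rw [h]
        exact b.2.symm
      rw [if_neg hj, if_neg h1, if_neg hj]

end er

variable {C : ∀ (G : Type) [Group G], Prop}

/-- **kernels of finitely supported functions** -/
theorem fs (hC : ClosedE C) {I A Q : Type} [Group A] [Group Q] (hA : C A) (hQ : C Q)
    (Γ : Subgroup (Wr I A × Q))
    (h1 : ∀ g ∈ Γ, g.2 = 1 → g.1.p = 1 ∧ {i | g.1.s i ≠ 1}.Finite)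
    (h2 : ∀ f : I → A, {i | f i ≠ 1}.Finite → ((⟨f, 1⟩, 1) : Wr I A × Q) ∈ Γ) : C Γ := by
  classical
  let _ : MulAction Γ I :=
    { smul := fun g i => g.1.1.p i, one_smul := fun _ => rfl, mul_smul := fun _ _ _ => rfl }
  obtain ⟨pq, hpq⟩ : ∃ pq : Γ →* Q, ∀ g, pq g = g.1.2 :=
    ⟨(MonoidHom.snd _ _).comp Γ.subtype, fun _ => rfl⟩
  obtain ⟨K, hK⟩ : ∃ K : I → Subgroup Γ, ∀ i g, g ∈ K i ↔
      (g.1.2 = 1 ∧ g.1.1.p = 1 ∧ ∀ j, j ≠ i → g.1.1.s j = 1) := by
    refine ⟨fun i =>
      { carrier := {g | g.1.2 = 1 ∧ g.1.1.p = 1 ∧ ∀ j, j ≠ i → g.1.1.s j = 1}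
        one_mem' := ⟨rfl, rfl, fun _ _ => rfl⟩
        mul_mem' := ?_
        inv_mem' := ?_ }, fun i g => Iff.rfl⟩
    · rintro a b ⟨ha1, ha2, ha3⟩ ⟨hb1, hb2, hb3⟩
      refine ⟨?_, ?_, ?_⟩
      · show a.1.2 * b.1.2 = 1
        rw [ha1, hb1, one_mul]
      · show a.1.1.p * b.1.1.p = 1
        rw [ha2, hb2, one_mul]
      · intro j hj
        show a.1.1.s (b.1.1.p j) * b.1.1.s j = 1
        rw [hb2, hb3 j hj, Equiv.Perm.one_apply, ha3 j hj, one_mul]
    · rintro a ⟨ha1, ha2, ha3⟩
      refine ⟨?_, ?_, ?_⟩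
      · show (a.1.2)⁻¹ = 1
        rw [ha1, inv_one]
      · show (a.1.1.p)⁻¹ = 1
        rw [ha2, inv_one]
      · intro j hj
        show (a.1.1.s (a.1.1.p⁻¹ j))⁻¹ = 1
        rw [ha2, inv_one, Equiv.Perm.one_apply, ha3 j hj, inv_one]
  have hker : ∀ g : Γ, g ∈ pq.ker ↔ g.1.2 = 1 := fun g => by rw [MonoidHom.mem_ker, hpq]
  have hrdp : IsRdp pq.ker K := by
    refine ⟨le_antisymm (iSup_le fun i g hg => (hker g).2 ((hK i g).1 hg).1) ?_, ?_, ?_, ?_⟩
    · -- the kernel is generated by the factors
      have key : ∀ (S : Finset I) (g : Γ), g.1.2 = 1 → g.1.1.p = 1 → (∀ j, j ∉ S → g.1.1.s j = 1) →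
          g ∈ ⨆ i, K i := by
        intro S
        induction S using Finset.induction_on with
        | empty =>
          intro g hg1 hg2 hg3
          have : g = 1 := by
            refine Subtype.ext (Prod.ext (Wr.ext ?_ hg2) hg1)
            funext j
            exact hg3 j (Finset.notMem_empty j)
          rw [this]
          exact one_mem _
        | @insert a S ha ih =>
          intro g hg1 hg2 hg3
          obtain ⟨f, hf⟩ : ∃ f : I → A, f = fun j => if j = a then g.1.1.s a else 1 := ⟨_, rfl⟩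
          have hfa : f a = g.1.1.s a := by rw [hf]; exact if_pos rfl
          have hfj : ∀ j, j ≠ a → f j = 1 := fun j hj => by rw [hf]; exact if_neg hj
          have hfin : {i | f i ≠ 1}.Finite := by
            refine (Set.finite_singleton a).subset fun j hj => ?_
            by_contra hne
            exact hj (hfj j hne)
          obtain ⟨x, hx⟩ : ∃ x : Γ, x = ⟨(⟨f, 1⟩, 1), h2 f hfin⟩ := ⟨_, rfl⟩
          have hx1 : x ∈ K a := by
            rw [hK, hx]
            exact ⟨rfl, rfl, hfj⟩
          have hx2 : g = x * (x⁻¹ * g) := by group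
          rw [hx2]
          refine mul_mem (Subgroup.mem_iSup_of_mem a hx1) (ih _ ?_ ?_ ?_)
          · rw [hx]
            show (1 : Q)⁻¹ * g.1.2 = 1
            rw [hg1, inv_one, one_mul]
          · rw [hx]
            show (1 : Equiv.Perm I)⁻¹ * g.1.1.p = 1
            rw [hg2, inv_one, one_mul]
          · intro j hj
            rw [hx]
            show (f ((1 : Equiv.Perm I)⁻¹ (g.1.1.p j)))⁻¹ * g.1.1.s j = 1
            rw [hg2, inv_one, Equiv.Perm.one_apply, Equiv.Perm.one_apply]
            by_cases hja : j = a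
            · rw [hja, hfa, inv_mul_cancel]
            · rw [hfj j hja, inv_one, one_mul]
              exact hg3 j (by rw [Finset.mem_insert]; tauto)
      intro g hg
      have hg1 := (hker g).1 hg
      obtain ⟨hg2, hg3⟩ := h1 g.1 g.2 hg1
      refine key hg3.toFinset g hg1 hg2 fun j hj => ?_
      by_contra hne
      exact hj (hg3.mem_toFinset.2 hne)
    · intro i j hij x hx y hy
      obtain ⟨hx1, hx2, hx3⟩ := (hK i x).1 hx
      obtain ⟨hy1, hy2, hy3⟩ := (hK j y).1 hy
      refine Subtype.ext (Prod.ext (Wr.ext ?_ ?_) ?_)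
      · funext k
        show x.1.1.s (y.1.1.p k) * y.1.1.s k = y.1.1.s (x.1.1.p k) * x.1.1.s k
        rw [hx2, hy2, Equiv.Perm.one_apply]
        by_cases hk : k = i
        · have : k ≠ j := by rw [hk]; exact hij
          rw [hy3 k this, one_mul, mul_one]
        · rw [hx3 k hk, one_mul, mul_one]
      · show x.1.1.p * y.1.1.p = y.1.1.p * x.1.1.p
        rw [hx2, hy2]
      · show x.1.2 * y.1.2 = y.1.2 * x.1.2
        rw [hx1, hy1]
    · intro i
      rw [eq_bot_iff]
      rintro x ⟨hx, hx'⟩
      have hle : (⨆ j, ⨆ _ : j ≠ i, K j) ≤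
          { carrier := {g : Γ | g.1.1.p = 1 ∧ g.1.1.s i = 1}
            one_mem' := ⟨rfl, rfl⟩
            mul_mem' := by
              rintro a b ⟨ha, ha'⟩ ⟨hb, hb'⟩
              refine ⟨?_, ?_⟩
              · show a.1.1.p * b.1.1.p = 1
                rw [ha, hb, one_mul]
              · show a.1.1.s (b.1.1.p i) * b.1.1.s i = 1
                rw [hb, Equiv.Perm.one_apply, ha', hb', one_mul]
            inv_mem' := by
              rintro a ⟨ha, ha'⟩
              refine ⟨?_, ?_⟩
              · show (a.1.1.p)⁻¹ = 1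
                rw [ha, inv_one]
              · show (a.1.1.s (a.1.1.p⁻¹ i))⁻¹ = 1
                rw [ha, inv_one, Equiv.Perm.one_apply, ha', inv_one] : Subgroup Γ } := by
        refine iSup₂_le fun j hj y hy => ?_
        obtain ⟨_, hy2, hy3⟩ := (hK j y).1 hy
        exact ⟨hy2, hy3 i hj.symm⟩
      obtain ⟨hx1, hx2, hx3⟩ := (hK i x).1 hx
      have hx4 := (hle hx').2
      rw [Subgroup.mem_bot]
      refine Subtype.ext (Prod.ext (Wr.ext ?_ hx2) hx1)
      funext k
      by_cases hk : k = i
      · rw [hk]; exact hx4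
      · exact hx3 k hk
    · intro g i x hx
      obtain ⟨hx1, hx2, hx3⟩ := (hK i x).1 hx
      rw [hK]
      refine ⟨?_, ?_, ?_⟩
      · show g.1.2 * x.1.2 * (g.1.2)⁻¹ = 1
        rw [hx1, mul_one, mul_inv_cancel]
      · show g.1.1.p * x.1.1.p * (g.1.1.p)⁻¹ = 1
        rw [hx2, mul_one, mul_inv_cancel]
      · intro j hj
        show (g.1.1.s (x.1.1.p (g.1.1.p⁻¹ j)) * x.1.1.s (g.1.1.p⁻¹ j)) *
          (g.1.1.s (g.1.1.p⁻¹ j))⁻¹ = 1
        have hne : g.1.1.p⁻¹ j ≠ i := by
          intro h
          apply hj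
          show j = g.1.1.p i
          rw [← h]
          exact (g.1.1.p.apply_symm_apply j).symm
        rw [hx2, hx3 _ hne, Equiv.Perm.one_apply, mul_one, mul_inv_cancel]
  refine rdp hC hrdp ?_ ?_
  · intro i g hgi
    have hle : K i ⊔ Subgroup.zpowers g ≤ (St I A Q i).comap Γ.subtype := by
      refine sup_le ?_ ?_
      · intro x hx
        show x.1.1.p i = i
        rw [((hK i x).1 hx).2.1]
        rfl
      · rw [Subgroup.zpowers_le]
        exact hgi
    obtain ⟨j, hj⟩ : ∃ j : ↥(K i ⊔ Subgroup.zpowers g) →* St I A Q i, ∀ x, (j x).1 = x.1.1 :=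
      ⟨(Γ.subtype.comp (K i ⊔ Subgroup.zpowers g).subtype).codRestrict _ fun x => hle x.2,
        fun _ => rfl⟩
    obtain ⟨g', hg'⟩ : ∃ g' : ↥(K i ⊔ Subgroup.zpowers g),
        g' = ⟨g, Subgroup.mem_sup_right (Subgroup.mem_zpowers g)⟩ := ⟨_, rfl⟩
    have hcyc : ∀ x, er i (j x) ∈ Subgroup.zpowers (er i (j g')) := by
      have h3 : (K i ⊔ Subgroup.zpowers g) ≤
          ((Subgroup.zpowers (er i (j g'))).comap ((er i).comp j)).map
            (K i ⊔ Subgroup.zpowers g).subtype := by
        refine sup_le ?_ ?_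
        · intro x hx
          refine ⟨⟨x, Subgroup.mem_sup_left hx⟩, ?_, rfl⟩
          show er i (j ⟨x, _⟩) ∈ Subgroup.zpowers (er i (j g'))
          have h4 : er i (j ⟨x, Subgroup.mem_sup_left hx⟩) = 1 := by
            obtain ⟨hx1, hx2, hx3⟩ := (hK i x).1 hx
            refine Prod.ext (Wr.ext ?_ ?_) ?_
            · funext k
              show (if k = i then 1 else (j ⟨x, Subgroup.mem_sup_left hx⟩).1.1.s k) = 1
              rw [hj]
              by_cases hk : k = i
              · rw [if_pos hk]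
              · rw [if_neg hk]
                exact hx3 k hk
            · show (j ⟨x, Subgroup.mem_sup_left hx⟩).1.1.p = 1
              rw [hj]
              exact hx2
            · show (j ⟨x, Subgroup.mem_sup_left hx⟩).1.2 = 1
              rw [hj]
              exact hx1
          rw [h4]
          exact one_mem _
        · rw [Subgroup.zpowers_le]
          refine ⟨g', ?_, by rw [hg']; rfl⟩
          exact Subgroup.mem_zpowers _
      intro x
      obtain ⟨y, hy, hyx⟩ := h3 x.2
      have : y = x := Subtype.ext hyx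
      rw [← this]
      exact hy
    refine hC.base.of_injective _ (A × Subgroup.zpowers (er i (j g')))
      (((ev i).comp j).prod (((er i).comp j).codRestrict _ hcyc)) ?_
      (hC.base.prod _ _ hA (C_cyc hC.base _))
    rw [injective_iff_map_eq_one]
    intro x hx
    have e1 : (j x).1.1.s i = 1 := congrArg Prod.fst hx
    have e2 : er i (j x) = 1 := congrArg (fun z : A × Subgroup.zpowers (er i (j g')) => z.2.1) hx
    have e3 : (fun k => if k = i then 1 else (j x).1.1.s k) = fun _ => (1 : A) :=
      congrArg (fun z : Wr I A × Q => z.1.s) e2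
    have e4 : (j x).1.1.p = 1 := congrArg (fun z : Wr I A × Q => z.1.p) e2
    have e5 : (j x).1.2 = 1 := congrArg (fun z : Wr I A × Q => z.2) e2
    rw [hj] at e1 e3 e4 e5
    refine Subtype.ext (Subtype.ext (Prod.ext (Wr.ext ?_ e4) e5))
    funext k
    by_cases hk : k = i
    · rw [hk]; exact e1
    · have := congrFun e3 k
      rw [if_neg hk] at this
      exact this
  · refine hC.base.of_injective _ _ ((Subgroup.subtype _).comp
      (QuotientGroup.quotientKerEquivRange pq).toMonoidHom) ?_ hQ
    exact Subtype.val_injective.comp (QuotientGroup.quotientKerEquivRange pq).injective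

end Pool.Agent.W2helper12.BW
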